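import Mathlib
import Pool.Agent.GulkoSum.Own

set_option autoImplicit false

universe u v

open Topology Cardinal TopologicalSpace

namespace Pool.Agent.Results.MP_4f6a4e_gt.CorsonCompactum

/-- `C_p(X)`: the continuous real functions on `X`, topologised as a subspace of `ℝ ^ X`. -/
abbrev Cp (X : Type u) [TopologicalSpace X] : Type u := {f : X → ℝ // Continuous f}

/-- `Z` is a Lindelöf Σ-space: a continuous image of a closed subspace `F` of `K × M`, `K` compact
Hausdorff, `M` separable metrizable. -/
def IsLindelofSigma (Z : Type u) [TopologicalSpace Z] : Prop :=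
  ∃ (K M : Type v) (_ : TopologicalSpace K) (_ : TopologicalSpace M) (F : Set (K × M)) (f : F → Z),
    CompactSpace K ∧ T2Space K ∧ SeparableSpace M ∧ MetrizableSpace M ∧ IsClosed F ∧
      Continuous f ∧ Function.Surjective f

/-- A compact space `X` is Gul'ko compact if `C_p(X)` is a Lindelöf Σ-space. -/
def IsGulko (X : Type u) [TopologicalSpace X] : Prop := IsLindelofSigma.{u, v} (Cp X)

/-- There is a closed subspace `X` of a Cantor cube `{0,1} ^ Γ`, all of whose points have countable
support (so `X` is Corson compact), such that the closure of every subset of `X` of size at most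
continuum is Gul'ko compact, while `X` is not Gul'ko compact. -/
theorem result : ∃ (Γ : Type) (X : Set (Γ → Bool)), IsClosed X ∧
    (∀ x ∈ X, {γ | x γ = true}.Countable) ∧
    (∀ A : Set X, #A ≤ 𝔠 → IsGulko.{0, 0} (closure A)) ∧ ¬ IsGulko.{0, v} X := by
  refine ⟨GulkoSum.Vx, GulkoSum.XX, GulkoSum.isClosed_XX,
    fun x hx => GulkoSum.countable_support ⟨x, hx⟩,
    fun A hA => GulkoSum.sigma_of_net (GulkoSum.closure_hasNet A hA), ?_⟩
  rintro ⟨K, M, tK, tM, F, f, h1, -, h3, h4, h5, h6, h7⟩
  exact GulkoSum.not_hasNet (GulkoSum.net_of_sigma F h5 f h6 h7)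

end Pool.Agent.Results.MP_4f6a4e_gt.CorsonCompactum
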